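import Pool.Agent.Run7.h905.DK.Dj

/-!
# Jacobians of rank equal to the dimension in Dickson pencils: the Tate-Shafarevich group

Let `n = 2 g + 1 ≥ 3` be odd, `k` a field with a primitive `n`-th root of unity `ζ`, `δ` in `k` not zero, and
`D_n(x) = D_n(x, δ)` the Dickson polynomial, `D_n(u + δ / u) = u ^ n + (δ / u) ^ n`. For `b` in `k[t]` let
`Q = D_n(b) - t` and let `A` be the Jacobian, of dimension `g`, of the curve

  `C_b : Q y ^ 2 = D_n(x) - t`

over `K = k(t)`. There are the points `(b, 1)` and the divisors `h_j(x) = 0, y = 1` of degree two,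
`h_j = x ^ 2 - c_j b x + b ^ 2 + δ (c_j ^ 2 - 4)`, `c_j = ζ ^ j + ζ ^ (-j)`, `1 ≤ j ≤ g`, as `D_n(x) - D_n(b)` is
the product of `x - b` and the `h_j`.

Theorem. 1. Let `k` be perfect of characteristic different from 2, `b` not constant, `Q` irreducible and
`b ^ 2 - 4 δ` not a square modulo `Q`. Then `A(K)` has no element of order two, `A(K) / 2 A(K)` has `2 ^ g`
elements and is generated by the classes of these `g + 1` divisors, the only relation being that the sum
of all is zero, the rank is exactly `g`, and the 2-primary part of the Tate-Shafarevich group is zero.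

2. Let `m ≥ 1`. For all large finite fields `k` with `q` elements, `n m ∣ q - 1`, of characteristic not
dividing `2 (n m - 1)`, ALL `δ ≠ 0` and ALL `b₁` in `k[t]` of degree `m`, for all but at most `n m + 1` elements
`λ` of `k` at least `q / (2 (n m + 2) ^ (n m + 2))` of the elements `μ` of `k` are such that `b = λ b₁ + μ` has
all these properties, over ALL the fields `k'(t)`, `k'` a finite extension of `k` of degree prime to
`2 n m`. So this holds for a positive proportion of all `b` of degree `m`, for every `m` and every `n`.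

By Tate, Milne, Kato and Trihan (not formalised) the Tate-Shafarevich groups of these `A` over these
`k'(t)` are finite.

Proof. The descent by the divisors on the affine line `D_n(x) = t` (`MP_60d5ce_nt.TwistsByPrimes`), where
there are `g + 1` places over `Q`; for the second part a form of Chebotarev's theorem over `k(μ)`: `Q` is
irreducible if and only if `x - b(D_n(x))` is, and the norm of `b ^ 2 - 4 δ` is, up to a square, a
quadratic polynomial in `μ`, whose square root is ramified over `k(μ)` where the splitting field of the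
polynomial `x - b(D_n(x))` is not.
-/

set_option autoImplicit false
set_option linter.all false

open Polynomial
open scoped Classical

namespace Pool.Agent.Results.MP_72e2e6_nt.DicksonPencils

open Pool.Agent.Y713.Jac (J CoordRing)
open Pool.Agent.N352.Sha (ShaTrivial)
open Pool.Agent.Results.MP_60d5ce_nt.TwistsByPrimes (IsClass)

section defs

/-- The polynomial `Q = D_n(b, δ) - t`. -/
noncomputable def Q {k : Type} [Field k] (n : ℕ) (δ : k) (b : k[X]) : k[X] :=
  (dickson 1 δ n).comp b - X

/-- The polynomial `h = x ^ 2 - c b x + b ^ 2 + δ (c ^ 2 - 4)`. -/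
noncomputable def quadratic {k : Type} [Field k] (c δ : k) (b : k[X]) : k[X][X] :=
  X ^ 2 - C (C c * b) * X + C (b ^ 2 + C (δ * (c ^ 2 - 4)))

/-- The factors `h_0 = x - b` and `h_j = x ^ 2 - c_j b x + b ^ 2 + δ (c_j ^ 2 - 4)`,
`c_j = ζ ^ j + ζ ^ (n - j)`, `n = 2 g + 1`, `1 ≤ j ≤ g`. -/
noncomputable def factors {k : Type} [Field k] (g : ℕ) (ζ δ : k) (b : k[X]) : Fin (g + 1) → k[X][X] :=
  Fin.cons (X - C b) fun j : Fin g =>
    quadratic (ζ ^ ((j : ℕ) + 1) + ζ ^ (2 * g + 1 - ((j : ℕ) + 1))) δ b

/-- `ζ` is a primitive `n`-th root of unity, `n = 2 g + 1`, `δ ≠ 0`, `b` is not constant, `Q` is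
irreducible and `b ^ 2 - 4 δ` is not a square modulo `Q`. -/
structure Conditions {k : Type} [Field k] (g : ℕ) (ζ δ : k) (b : k[X]) : Prop where
  root : IsPrimitiveRoot ζ (2 * g + 1)
  ne_zero : δ ≠ 0
  nonconstant : 1 ≤ b.natDegree
  prime : Irreducible (Q (2 * g + 1) δ b)
  nonsquare : ∀ w : k[X], ¬ Q (2 * g + 1) δ b ∣ b ^ 2 - C (4 * δ) - w ^ 2

variable {k : Type} (K : Type) [Field k] [Field K] [Algebra k[X] K]

/-- The monic polynomial over `K` whose zeros are those of `h` multiplied by `Q`. -/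
noncomputable def scale (Q : k[X]) (h : k[X][X]) : K[X] :=
  (h.map (algebraMap k[X] K)).scaleRoots (algebraMap k[X] K Q)

/-- The polynomial `F` such that `C_b : Q y ^ 2 = D_n(x) - t` is isomorphic to `Y ^ 2 = F(X)` by `X = Q x`,
`Y = Q ^ ((n + 1) / 2) y`. -/
noncomputable def model (n : ℕ) (δ : k) (b : k[X]) : K[X] :=
  scale K (Q n δ b) ((dickson 1 δ n).map C - C X)

/-- The Jacobian `J` of `y ^ 2 = F(x)` over `K` has no `K`-rational point of order two, the group
`J(K) / 2 J(K)` has `2 ^ r` elements, and the rank of `J(K)` is `r` if `J(K)` is finitely generated. -/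
structure RankIs {K : Type} [Field K] (F : K[X]) (r : ℕ) : Prop where
  torsion : ∀ P : J 2 F K, P ^ 2 = 1 → P = 1
  index : (powMonoidHom 2 : J 2 F K →* J 2 F K).range.index = 2 ^ r
  rank : Group.FG (J 2 F K) → Module.finrank ℤ (Additive (J 2 F K)) = r

/-- The product of the `P_j`, `j ∈ S`, is a square only for the empty set and for the set of all
indices. -/
def OnlyRelation {G : Type} [CommGroup G] {m : ℕ} (P : Fin m → G) : Prop :=
  ∀ S : Finset (Fin m), (∃ R, ∏ j ∈ S, P j = R ^ 2) ↔ S = ∅ ∨ S = Finset.univ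

/-- The `P_j` generate the group modulo squares. -/
def GenerateModSquares {G : Type} [CommGroup G] {m : ℕ} (P : Fin m → G) : Prop :=
  ∀ x, ∃ (S : Finset (Fin m)) (R : G), x = (∏ j ∈ S, P j) * R ^ 2

/-- The classes `P_j` of the divisors `p_j(x) = 0, y = c(x)` generate `J(K)` modulo `2 J(K)`, `J` the
Jacobian of `y ^ 2 = F(x)`, and the only relation is that the sum of all of them is zero. -/
def HasBasis {K : Type} [Field K] (F c : K[X]) {m : ℕ} (p : Fin m → K[X]) : Prop :=
  ∃ P : Fin m → J 2 F K, (∀ j, IsClass F (p j) c (P j)) ∧ GenerateModSquares P ∧ OnlyRelation P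

/-- The classes in `A(K)`, `A` the Jacobian of `C_b`, of the divisors `h_j(x) = 0, y = 1`, i.e.
`Y = Q ^ (g + 1)`, generate `A(K)` modulo `2 A(K)`, and the only relation is that the sum of all of them is
zero. -/
def Basis (g : ℕ) (ζ δ : k) (b : k[X]) : Prop :=
  HasBasis (model K (2 * g + 1) δ b) (C (algebraMap k[X] K (Q (2 * g + 1) δ b) ^ (g + 1)))
    fun j => scale K (Q (2 * g + 1) δ b) (factors g ζ δ b j)

/-- For the Jacobian `A` of `C_b`, `n = 2 g + 1`: `Q` is irreducible, `A(K)` has no element of order two,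
`A(K) / 2 A(K)` has `2 ^ g` elements, the rank is `g` if `A(K)` is finitely generated, the classes of the
divisors `h_j(x) = 0, y = 1` generate `A(K) / 2 A(K)`, the only relation is that
the sum of all of them is zero, and the 2-primary part of the Tate-Shafarevich group is zero: every
continuous cocycle of the absolute Galois group of `K` with values in `A(K^sep)` whose class is of 2-power
order and zero over the completions of `K` at all the places except possibly `t = ∞` is a coboundary. -/
structure Good [IsFractionRing k[X] K] (g : ℕ) (ζ δ : k) (b : k[X]) : Prop where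
  prime : Irreducible (Q (2 * g + 1) δ b)
  rank : RankIs (model K (2 * g + 1) δ b) g
  basis : Basis K g ζ δ b
  sha : ShaTrivial 2 (model K (2 * g + 1) δ b) k[X]

/-- `Good` over the fields `k'(t)` for all the finite extensions `k'` of `k` of degree prime to `N`. -/
def GoodOverAll (N g : ℕ) (ζ δ : k) (b : k[X]) : Prop :=
  ∀ (k' K' : Type) [Field k'] [Algebra k k'] [FiniteDimensional k k'] [Field K'] [Algebra k'[X] K']
    [IsFractionRing k'[X] K'], Nat.Coprime N (Module.finrank k k') →
    Good K' g (algebraMap k k' ζ) (algebraMap k k' δ) (b.map (algebraMap k k'))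

/-- For all `b₁` of degree `m` and all but at most `n m + 1` elements `l` of `k`, `n = 2 g + 1`, at least
`|k| / (2 (n m + 2) ^ (n m + 2))` elements `μ` of `k` are such that `b = l b₁ + μ` is `Good` over all the
fields `k'(t)`, `k'` a finite extension of `k` of degree prime to `2 n m`. -/
def PositiveProportion (k : Type) [Field k] [Finite k] (g m : ℕ) (ζ δ : k) : Prop :=
  ∀ b₁ : k[X], b₁.natDegree = m → ∃ bad : Finset k, bad.card ≤ (2 * g + 1) * m + 1 ∧ ∀ l ∉ bad,
    Nat.card k ≤ 2 * ((2 * g + 1) * m + 2) ^ ((2 * g + 1) * m + 2) *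
      {μ : k | GoodOverAll (2 * ((2 * g + 1) * m)) g ζ δ (C l * b₁ + C μ)}.ncard

end defs

open Run7.h905.DK Run7.h905.BS

theorem good_of {k : Type} (K : Type) [Field k] [PerfectField k] [Field K] [Algebra k[X] K]
    [IsFractionRing k[X] K] {g : ℕ} {ζ δ : k} {b : k[X]} (h2 : (2 : k) ≠ 0) (hg : 1 ≤ g)
    (hζ : IsPrimitiveRoot ζ (2 * g + 1)) (hδ : δ ≠ 0) (hb : 1 ≤ b.natDegree)
    (hQ : Irreducible (Q (2 * g + 1) δ b))
    (hns : ∀ w : k[X], ¬ Q (2 * g + 1) δ b ∣ b ^ 2 - C (4 * δ) - w ^ 2) : Good K g ζ δ b := by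
  obtain ⟨⟨P, h1, h3, h4⟩, h5, h6⟩ := critD K h2 hg hζ hδ hb hQ hns
  refine ⟨hQ, ⟨h5.torsion, h5.index, h5.rank⟩, ⟨P, ?_, ?_, ?_⟩, h6⟩
  · intro j
    obtain ⟨hD, hne, hcl⟩ := h1 j
    have ec : C (algebraMap k[X] K (QD δ (2 * g + 1) b) ^
        (((fa (D δ (2 * g + 1))).natDegree + 1) / 2)) * (((1 : k[X][X])).map (algebraMap k[X] K)).comp
          (C (algebraMap k[X] K (QD δ (2 * g + 1) b))⁻¹ * X) =
        C (algebraMap k[X] K (Q (2 * g + 1) δ b) ^ (g + 1)) := by
      rw [Polynomial.map_one, one_comp, mul_one, fa_deg (by rw [D_deg δ (by omega)]; omega),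
        D_deg δ (by omega)]
      have e1 : (2 * g + 1 + 1) / 2 = g + 1 := by omega
      rw [e1]
      rfl
    have h7 : IsClass (model K (2 * g + 1) δ b) (scale K (Q (2 * g + 1) δ b) (factors g ζ δ b j))
        (C (algebraMap k[X] K (QD δ (2 * g + 1) b) ^
          (((fa (D δ (2 * g + 1))).natDegree + 1) / 2)) * (((1 : k[X][X])).map (algebraMap k[X] K)).comp
            (C (algebraMap k[X] K (QD δ (2 * g + 1) b))⁻¹ * X)) (P j) := ⟨hD, hne, hcl⟩
    rw [ec] at h7
    exact h7
  · intro x
    obtain ⟨S, -, R, hR⟩ := h4 x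
    exact ⟨S, R, hR⟩
  · intro S
    exact h3 S (Finset.subset_univ S)

theorem result (g : ℕ) (hg : 1 ≤ g) :
    -- the criterion
    (∀ (k K : Type) [Field k] [PerfectField k] [Field K] [Algebra k[X] K] [IsFractionRing k[X] K],
      (2 : k) ≠ 0 → ∀ (ζ δ : k) (b : k[X]), Conditions g ζ δ b → Good K g ζ δ b) ∧
    -- positive proportion in all pencils
    (∀ m : ℕ, 1 ≤ m → ∃ q₀ : ℕ, ∀ (k : Type) [Field k] [Finite k],
      (2 * g + 1) * m ∣ Nat.card k - 1 → ((2 * ((2 * g + 1) * m - 1) : ℕ) : k) ≠ 0 →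
      q₀ < Nat.card k → ∀ ζ δ : k, IsPrimitiveRoot ζ (2 * g + 1) → δ ≠ 0 →
      PositiveProportion k g m ζ δ) := by
  refine ⟨?_, ?_⟩
  · intro k K _ _ _ _ _ h2 ζ δ b h
    exact good_of K h2 hg h.root h.ne_zero h.nonconstant h.prime h.nonsquare
  · intro m hm
    obtain ⟨C0, hC0⟩ := pencilD g m hg hm
    refine ⟨C0, ?_⟩
    intro k _ _ hdiv h6 hcard ζ δ hζ hδ b hb
    obtain ⟨bad, h1, h2⟩ := hC0 k hdiv h6 hcard δ hδ b hb
    refine ⟨bad, h1, fun l hl => ?_⟩
    obtain ⟨hl0, hcount⟩ := h2 l hl
    refine hcount.trans (Nat.mul_le_mul_left _ (Set.ncard_le_ncard ?_ (Set.toFinite _)))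
    intro μ hμ k' K' _ _ _ _ _ _ hc
    obtain ⟨h3, h4⟩ := hμ k' hc
    haveI : Finite k' := Module.finite_of_finite k
    have hinj : Function.Injective (algebraMap k k') := (algebraMap k k').injective
    refine good_of K' ?_ hg (hζ.map_of_injective hinj) ((_root_.map_ne_zero (algebraMap k k')).2 hδ) ?_ h3 h4
    · rw [Nat.cast_mul] at h6
      have h5 : (2 : k) ≠ 0 := by
        have := left_ne_zero_of_mul h6
        exact_mod_cast this
      rw [← map_ofNat (algebraMap k k') 2]
      exact (_root_.map_ne_zero (algebraMap k k')).2 h5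
    · rw [natDegree_map, natDegree_add_C, natDegree_C_mul hl0, hb]
      exact hm

end Pool.Agent.Results.MP_72e2e6_nt.DicksonPencils
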