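import Pool.Agent.Run7.h905.BS.Xa
import Pool.Agent.Run7.h905.BS.ExF

/-!
# Finite Tate-Shafarevich groups and constant rank in towers of Jacobians of unbounded dimension

Let `k` be a perfect field of characteristic different from 2, `a` in `k[x]` monic of odd degree,
`Q(t)` a prime polynomial, and for a prime `s ≠ 2` and `i ≥ 0` let `J_i` be the Jacobian over
`K = k(t)` of the curve

  `Q(t) y ^ 2 = a(x ^ (s ^ i)) - t`.

Theorem. 1. Let `a(x) - t` be modulo `Q` the product of the distinct irreducible reductions of the monic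
polynomials `h_1, …, h_m`, and suppose that for at least `m - 1` indices `j` there is a polynomial
`u_j` with `h_j ∣ a(x) - t - Q u_j ^ 2`, i.e. that there are the divisors `h_j(x) = 0`, `y = u_j(x)` on the
curve with `i = 0`. If for every `j` the residue class of `x` modulo `(Q, h_j)` is not an `s`-th power, then
for all `i` the group `J_i(K) / 2 J_i(K)` has `2 ^ (m - 1)` elements, `J_i(K)[2] = 0`, and the
2-primary part of the Tate-Shafarevich group of `J_i` is zero.

2. For every `r ≥ 1` there are a finite field `k` of characteristic `p ≠ 2`, `l, c ∈ k` and a prime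
`s ≠ 2, p` such that for all `i` the Jacobian of
`(t ^ p - (l + 1) t - c) y ^ 2 = x ^ (p s ^ i) - l x ^ (s ^ i) - c - t`
has rank `r` over `k(t)`, no point of order 2, and no 2-torsion in its Tate-Shafarevich group.

Let `k` be finite. Then the group `Sha(J_i / K)` is finite for all `i` by the theorem of Tate, Milne and
Kato-Trihan, because its 2-primary part is zero; `J_i(K)` is finitely generated (Lang, Néron), so its
rank is `m - 1`, the order of vanishing of the L-function at `s = 1`. (These theorems are not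
formalised.) The dimension of `J_i` is not bounded: this is Q1 for `A = J_i`, `L = K`, for infinitely
many abelian varieties over the same field `K` of the same rank.

In 2 the rank comes from the curve for `i = 0`, which is isotrivial; the curves for `i ≥ 1` are not
isotrivial, and the new parts of their Jacobians have rank 0.
-/

open Polynomial IsDedekindDomain
open scoped Classical

set_option autoImplicit false
set_option linter.all false

namespace Pool.Agent.Results.MP_72e2e6_nt.TowersOfEveryRank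

open Pool.Agent.Y713.Jac (J CoordRing)
open Pool.Agent.N352.Sha (ShaTrivial)

section defs

/-- The Jacobian `J` of `y ^ 2 = F(x)` over `K` has no `K`-rational point of order two, the group
`J(K) / 2 J(K)` has `2 ^ r` elements, and the rank of `J(K)` is `r` if `J(K)` is finitely generated. -/
structure RankIs {K : Type} [Field K] (F : K[X]) (r : ℕ) : Prop where
  torsion : ∀ P : J 2 F K, P ^ 2 = 1 → P = 1
  index : (powMonoidHom 2 : J 2 F K →* J 2 F K).range.index = 2 ^ r
  rank : Group.FG (J 2 F K) → Module.finrank ℤ (Additive (J 2 F K)) = r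

variable {k : Type} [Field k] (K : Type) [Field K] [Algebra k[X] K]

/-- The monic polynomial `F` with `F(Q x) = Q ^ n (a(x) - t)`, `n` the degree of `a`. For odd `n` the curve
`Q y ^ 2 = a(x) - t` is isomorphic to `Y ^ 2 = F(X)` by `X = Q x`, `Y = Q ^ ((n + 1) / 2) y`. -/
noncomputable def twist (a Q : k[X]) : K[X] :=
  ((a.map C - C X : k[X][X]).map (algebraMap k[X] K)).scaleRoots (algebraMap k[X] K Q)

/-- For the Jacobian of `Q(t) y ^ 2 = a(x) - t` over `K = k(t)`: there is no point of order two,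
`|J(K) / 2 J(K)| = 2 ^ r`, the rank is `r` if `J(K)` is finitely generated, and the 2-primary part of
the Tate-Shafarevich group is zero. -/
def HasRank [IsFractionRing k[X] K] (a Q : k[X]) (r : ℕ) : Prop :=
  RankIs (twist K a Q) r ∧ ShaTrivial 2 (twist K a Q) k[X]

/-- The `h_j` are monic, their reductions modulo `Q` are irreducible and distinct, and `a(x) - t` is
modulo `Q` the product of these reductions. -/
structure SplitsMod (a Q : k[X]) {m : ℕ} (h : Fin m → k[X][X]) : Prop where
  monic : ∀ j, (h j).Monic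
  irreducible : ∀ j, Irreducible ((h j).map (AdjoinRoot.mk Q))
  distinct : Function.Injective fun j => (h j).map (AdjoinRoot.mk Q)
  product : (a.map C - C X : k[X][X]).map (AdjoinRoot.mk Q) = ∏ j, (h j).map (AdjoinRoot.mk Q)

/-- For every `j` the residue class of `x` modulo `(Q, h_j)` is not an `s`-th power. -/
def NotPowers (Q : k[X]) {m : ℕ} (h : Fin m → k[X][X]) (s : ℕ) : Prop :=
  ∀ j, ∀ z : AdjoinRoot ((h j).map (AdjoinRoot.mk Q)), z ^ s ≠ AdjoinRoot.root _

/-- For at least `m - 1` indices `j` there is a polynomial `u_j` with `h_j ∣ a(x) - t - Q u_j ^ 2`. -/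
def ManyPoints (a Q : k[X]) {m : ℕ} (h : Fin m → k[X][X]) : Prop :=
  ∃ D : Finset (Fin m), m - 1 ≤ D.card ∧ ∀ j ∈ D, ∃ u : k[X][X], h j ∣ a.map C - C X - C Q * u ^ 2

/-- `t ^ p - (l + 1) t - c`. -/
noncomputable def primeQ (p : ℕ) (l c : k) : k[X] := X ^ p - C (l + 1) * X - C c

/-- `x ^ (p N) - l x ^ N - c`. -/
noncomputable def layer (p N : ℕ) (l c : k) : k[X] := X ^ (p * N) - C l * X ^ N - C c

end defs

open Run7.h905.BS

section rank

variable {K : Type} [Field K]

theorem rankIs_of {F : K[X]} {r : ℕ} (h1 : ∀ x : Additive (J 2 F K), 2 • x = 0 → x = 0)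
    (h2 : Nat.card (Additive (J 2 F K) ⧸ dbl (Additive (J 2 F K))) = 2 ^ r) : RankIs F r := by
  refine ⟨?_, ?_, ?_⟩
  · intro P hP
    have := h1 (Additive.ofMul P) (by
      rw [← ofMul_pow, hP]
      rfl)
    exact Additive.ofMul.injective this
  · rw [← h2]
    show Nat.card (J 2 F K ⧸ (powMonoidHom 2 : J 2 F K →* J 2 F K).range) = _
    apply Nat.card_congr
    refine Quotient.congr Additive.ofMul ?_
    intro a b
    show QuotientGroup.leftRel _ a b ↔ QuotientAddGroup.leftRel _ _ _
    rw [QuotientGroup.leftRel_apply, QuotientAddGroup.leftRel_apply, mem_dbl,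
      MonoidHom.mem_range]
    constructor
    · rintro ⟨R, hR⟩
      exact ⟨Additive.ofMul R, (congrArg Additive.ofMul hR).symm⟩
    · rintro ⟨R, hR⟩
      exact ⟨Additive.toMul R, (congrArg Additive.toMul hR).symm⟩
  · intro hfg
    haveI : AddGroup.FG (Additive (J 2 F K)) := by
      rwa [← GroupFG.iff_add_fg] at *
    exact rank_of h1 h2

end rank

section parts

variable {k : Type} [Field k] [PerfectField k] (K : Type) [Field K] [Algebra k[X] K]
  [IsFractionRing k[X] K]

theorem part1 (h2 : (2 : k) ≠ 0) {a Q : k[X]} (ha : a.Monic) (ho : Odd a.natDegree)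
    (hQ : Irreducible Q) {m : ℕ} {h : Fin m → k[X][X]} (hF : SplitsMod a Q h)
    (hP : ManyPoints a Q h) {s : ℕ} (hs : s.Prime) (hs2 : s ≠ 2) (hr : NotPowers Q h s) (i : ℕ) :
    HasRank K (a.comp (X ^ s ^ i)) Q (m - 1) := by
  obtain ⟨D, hD, hu⟩ := hP
  have hu' : ∀ j, ∃ u : k[X][X], j ∈ D → h j ∣ a.map C - C X - C Q * u ^ 2 := by
    intro j
    by_cases hj : j ∈ D
    · obtain ⟨u, h1⟩ := hu j hj
      exact ⟨u, fun _ => h1⟩
    · exact ⟨0, fun h1 => absurd h1 hj⟩
  choose u hu' using hu'
  obtain ⟨h3, h4, h5⟩ := mainX K h2 ha ho hQ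
    (⟨hF.monic, hF.irreducible, hF.distinct, hF.product⟩ : LiftQ _ Q h) hs hs2 hr hD
    (u := u) hu' i
  exact ⟨rankIs_of h3 h4, h5⟩

theorem facQ_rank (h2 : (2 : k) ≠ 0) {a Q : k[X]} (ha : a.Monic) (ho : Odd a.natDegree)
    (hQ : Irreducible Q) {m : ℕ} (hm : 2 ≤ m) {h : Fin m → k[X][X]} {u : k[X][X]}
    (hF : FacQ (a.map C - C X) Q h u) : HasRank K a Q (m - 1) := by
  have hL : LiftQ (a.map C - C X) Q h := by
    refine ⟨hF.mon, hF.irr, hF.dist, ?_⟩
    have h1 := congrArg (Polynomial.map (AdjoinRoot.mk Q)) hF.id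
    rw [h1, Polynomial.map_add, Polynomial.map_mul, map_C, AdjoinRoot.mk_self, C_0, zero_mul,
      add_zero, Polynomial.map_prod]
  have hf : GoodCurve (a.map C - C X) := fa_good ha ho
  obtain ⟨h3, -, h5⟩ := critS K h2 hf hQ (hL.split hQ)
  obtain ⟨P, -, -, h6⟩ := critP K h2 hf hQ hL hm (D := Finset.univ) (u := fun _ => u) (by
    intro j _
    have h7 : (a.map C - C X : k[X][X]) - C Q * u ^ 2 = ∏ j, h j := by
      rw [hF.id]
      ring
    rw [h7]
    exact Finset.dvd_prod_of_mem h (Finset.mem_univ j))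
  obtain ⟨-, h8⟩ := h6 (by rw [Finset.card_univ, Fintype.card_fin]; omega)
  exact ⟨rankIs_of h3 h8, h5 h8⟩

end parts

theorem allRanks (r : ℕ) (hr : 1 ≤ r) : ∃ (p s : ℕ) (k : Type) (_ : Field k) (_ : Finite k)
    (_ : CharP k p) (l c : k), p.Prime ∧ p ≠ 2 ∧ s.Prime ∧ s ≠ 2 ∧ s ≠ p ∧
      Irreducible (primeQ p l c) ∧
      ∀ (i : ℕ) (K : Type) [Field K] [Algebra k[X] K] [IsFractionRing k[X] K],
        HasRank K (layer p (s ^ i) l c) (primeQ p l c) r := by
  obtain ⟨p, d, s, hp, k, _, _, _, l, w, η, ζ, δ, ρ, h⟩ := exists_dat r hr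
  refine ⟨p, s, k, inferInstance, inferInstance, inferInstance, l, δ, hp.out, h.odd, h.sp, h.s2, ?_,
    h.irr, ?_⟩
  · rintro rfl
    have h1 : Function.Surjective (frobenius k s) :=
      Finite.surjective_of_injective (frobenius_inj k s)
    obtain ⟨y, hy⟩ := h1 δ
    exact h.nd y hy
  · intro i K _ _ _
    have h2 : (2 : k) ≠ 0 := by
      intro h0
      have h1 : ((2 : ℕ) : k) = 0 := by exact_mod_cast h0
      rw [CharP.cast_eq_zero_iff k p] at h1
      exact h.odd ((Nat.prime_dvd_prime_iff_eq hp.out Nat.prime_two).1 h1)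
    have hN : s ^ i ≠ 0 := pow_ne_zero _ h.sp.ne_zero
    have hodd : Odd (aP p l δ (s ^ i)).natDegree := by
      rw [aP_deg]
      exact (hp.out.odd_of_ne_two h.odd).mul (h.sp.odd_of_ne_two h.s2).pow
    have h3 := facQ_rank K h2 (aP_monic (p := p) l δ hN) hodd h.irr (by omega) (h.fac i)
    rw [aP_eq] at h3
    exact h3

theorem result :
    (∀ (k K : Type) [Field k] [PerfectField k] [Field K] [Algebra k[X] K] [IsFractionRing k[X] K],
      (2 : k) ≠ 0 → ∀ a Q : k[X], a.Monic → Odd a.natDegree → Irreducible Q →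
      ∀ (m : ℕ) (h : Fin m → k[X][X]), SplitsMod a Q h → ManyPoints a Q h →
      ∀ s : ℕ, s.Prime → s ≠ 2 → NotPowers Q h s → ∀ i : ℕ,
        HasRank K (a.comp (X ^ s ^ i)) Q (m - 1)) ∧
    ∀ r : ℕ, 1 ≤ r → ∃ (p s : ℕ) (k : Type) (_ : Field k) (_ : Finite k) (_ : CharP k p) (l c : k),
      p.Prime ∧ p ≠ 2 ∧ s.Prime ∧ s ≠ 2 ∧ s ≠ p ∧ Irreducible (primeQ p l c) ∧
      ∀ (i : ℕ) (K : Type) [Field K] [Algebra k[X] K] [IsFractionRing k[X] K],
        HasRank K (layer p (s ^ i) l c) (primeQ p l c) r :=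
  ⟨fun _ K _ _ _ _ _ h2 _ _ ha ho hQ _ _ hF hP _ hs hs2 hr i =>
    part1 K h2 ha ho hQ hF hP hs hs2 hr i, allRanks⟩

end Pool.Agent.Results.MP_72e2e6_nt.TowersOfEveryRank
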